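import Pool.Agent.H7.PQ.Fin
import Pool.Agent.H7.PQ.Pos
import Pool.Agent.H7.PQ.Smb

set_option autoImplicit false

/-!
# 100 per cent of the everywhere locally soluble intersections of two quadrics in `P^4` over `Q`
have a rational point

An integral quadratic form in five variables is given by its 15 coefficients `c : Idx 5 → ℤ`, indexed
by the pairs `(i, j)` with `i ≤ j`; `qv c x = ∑_{i ≤ j} c_(i,j) x_i x_j` is its value at `x`, and
`bf 5 A` is the finite set of all integral quadratic forms in five variables with coefficients in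
`[-A, A]`; there are `(2A+1)^15` of them.
-/

namespace Pool.Agent.Results.MP_1f1b65_nt.AlmostAllSurfaces

open Finset Pool.Agent.H7.HP

/-- `f = g = 0` has a nontrivial solution with coordinates in the ring `R` -/
def HasZero (R : Type) [CommRing R] (f g : Idx 5 → ℤ) : Prop :=
  ∃ x : Fin 5 → R, x ≠ 0 ∧ qv (fun p => (f p : R)) x = 0 ∧ qv (fun p => (g p : R)) x = 0

/-- `f = g = 0` has nontrivial solutions over `ℝ` and over `ℚ_p` for all primes `p`: the variety
`f = g = 0` in `P^4` has points over all completions of `ℚ` -/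
def EverywhereLocallySoluble (f g : Idx 5 → ℤ) : Prop :=
  HasZero ℝ f g ∧ ∀ (p : ℕ) [Fact p.Prime], HasZero ℚ_[p] f g

/-- the gradient at `x` of the quadratic form with coefficients `c` (`pl c x y` is the polar form, so
`pl c x e_i` is the partial derivative with respect to `x_i`) -/
def grad (c : Idx 5 → ℂ) (x : Fin 5 → ℂ) : Fin 5 → ℂ := fun i => pl c x (Pi.single i 1)

/-- the variety `f = g = 0` in `P^4` is a smooth complete intersection (a del Pezzo surface of
degree 4): the gradients of `f` and `g` are linearly independent at all complex zeros -/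
def IsSmooth (f g : Idx 5 → ℤ) : Prop :=
  ∀ x : Fin 5 → ℂ, x ≠ 0 → qv (fun p => (f p : ℂ)) x = 0 → qv (fun p => (g p : ℂ)) x = 0 →
    LinearIndependent ℂ ![grad (fun p => (f p : ℂ)) x, grad (fun p => (g p : ℂ)) x]

/-- `f = g = 0` has a nontrivial integral solution `x` with `|x_i| ≤ H` for all `i` -/
def HasIntegralZero (f g : Idx 5 → ℤ) (H : ℝ) : Prop :=
  ∃ x : Fin 5 → ℤ, x ≠ 0 ∧ qv f x = 0 ∧ qv g x = 0 ∧ ∀ i, |(x i : ℝ)| ≤ H

private theorem hasZero_of_int {R : Type} [CommRing R] [CharZero R] {f g : Idx 5 → ℤ} {H : ℝ}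
    (h : HasIntegralZero f g H) : HasZero R f g := by
  obtain ⟨x, hx, hf, hg, -⟩ := h
  refine ⟨fun i => (x i : R), ?_, ?_, ?_⟩
  · intro h0
    apply hx
    funext i
    have := congrFun h0 i
    have h1 : (x i : R) = 0 := this
    exact_mod_cast h1
  · have := qv_map (Int.castRingHom R) f x
    rw [hf, map_zero] at this
    exact this.symm
  · have := qv_map (Int.castRingHom R) g x
    rw [hg, map_zero] at this
    exact this.symm

private theorem locSol_of_int {f g : Idx 5 → ℤ} {H : ℝ} (h : HasIntegralZero f g H) :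
    EverywhereLocallySoluble f g :=
  ⟨hasZero_of_int h, fun _ _ => hasZero_of_int h⟩

open scoped Classical in
/-- Let `τ > 0`. There is `c > 0` such that for every `δ > 0` and all large `A` the following holds. Of
the `(2A+1)^30` pairs `(f, g)` of integral quadratic forms in five variables with coefficients in
`[-A, A]` at least `c (2A+1)^30` define a smooth complete intersection in `P^4` which is everywhere
locally soluble, and all but at most the proportion `δ` of these pairs have a common nontrivial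
integral zero `x` with `|x_i| ≤ A^(2+τ)`. -/
theorem result (τ : ℝ) (hτ : 0 < τ) :
    ∃ c : ℝ, 0 < c ∧ ∀ δ : ℝ, 0 < δ → ∃ A0 : ℕ, ∀ A : ℕ, A0 ≤ A →
      c * (2 * A + 1) ^ 30 ≤ (((bf 5 A ×ˢ bf 5 A).filter fun q =>
        IsSmooth q.1 q.2 ∧ EverywhereLocallySoluble q.1 q.2).card : ℝ) ∧
      (((bf 5 A ×ˢ bf 5 A).filter fun q => (IsSmooth q.1 q.2 ∧ EverywhereLocallySoluble q.1 q.2) ∧
          ¬ HasIntegralZero q.1 q.2 ((A : ℝ) ^ (2 + τ))).card : ℝ) ≤
        δ * (((bf 5 A ×ˢ bf 5 A).filter fun q =>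
          IsSmooth q.1 q.2 ∧ EverywhereLocallySoluble q.1 q.2).card : ℝ) := by
  obtain ⟨c, hc, A1, hA1⟩ := Pool.Agent.H7.PQ.pos2 τ hτ
  obtain ⟨A3, hA3⟩ := Pool.Agent.H7.PQ.smb (c / 2) (by positivity)
  refine ⟨c / 2, by positivity, fun δ hδ => ?_⟩
  obtain ⟨A2, hA2⟩ := Pool.Agent.H7.PQ.fin2 τ (δ * (c / 2)) hτ (by positivity)
  refine ⟨max A1 (max A2 A3), fun A hA => ?_⟩
  have h1 := hA1 A ((le_max_left _ _).trans hA)
  have h2 := hA2 A ((le_max_left _ _).trans ((le_max_right _ _).trans hA))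
  have h3 := hA3 A ((le_max_right _ _).trans ((le_max_right _ _).trans hA))
  have h4 : (((bf 5 A ×ˢ bf 5 A).filter fun q =>
      Pool.Agent.H7.PQ.IZ q.1 q.2 ((A : ℝ) ^ (2 + τ))).card : ℝ) ≤
      (((bf 5 A ×ˢ bf 5 A).filter fun q =>
        IsSmooth q.1 q.2 ∧ EverywhereLocallySoluble q.1 q.2).card : ℝ) +
      (((bf 5 A ×ˢ bf 5 A).filter fun q => ¬ Pool.Agent.H7.PQ.Smo q.1 q.2).card : ℝ) := by
    have h5 : ((bf 5 A ×ˢ bf 5 A).filter fun q =>
        Pool.Agent.H7.PQ.IZ q.1 q.2 ((A : ℝ) ^ (2 + τ))) ⊆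
        ((bf 5 A ×ˢ bf 5 A).filter fun q =>
          IsSmooth q.1 q.2 ∧ EverywhereLocallySoluble q.1 q.2) ∪
        ((bf 5 A ×ˢ bf 5 A).filter fun q => ¬ Pool.Agent.H7.PQ.Smo q.1 q.2) := by
      intro q hq
      rw [mem_union, mem_filter, mem_filter]
      rw [mem_filter] at hq
      by_cases hs : Pool.Agent.H7.PQ.Smo q.1 q.2
      · exact Or.inl ⟨hq.1, hs, locSol_of_int hq.2⟩
      · exact Or.inr ⟨hq.1, hs⟩
    have h6 := (card_le_card h5).trans (card_union_le _ _)
    exact_mod_cast h6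
  have h5 : c / 2 * (2 * A + 1) ^ 30 ≤ (((bf 5 A ×ˢ bf 5 A).filter fun q =>
      IsSmooth q.1 q.2 ∧ EverywhereLocallySoluble q.1 q.2).card : ℝ) := by
    linarith
  refine ⟨h5, ?_⟩
  have h6 : (((bf 5 A ×ˢ bf 5 A).filter fun q =>
      (IsSmooth q.1 q.2 ∧ EverywhereLocallySoluble q.1 q.2) ∧
          ¬ HasIntegralZero q.1 q.2 ((A : ℝ) ^ (2 + τ))).card : ℝ) ≤
      δ * (c / 2) * (2 * A + 1) ^ 30 := by
    refine le_trans ?_ h2
    have h7 : ((bf 5 A ×ˢ bf 5 A).filter fun q =>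
        (IsSmooth q.1 q.2 ∧ EverywhereLocallySoluble q.1 q.2) ∧
          ¬ HasIntegralZero q.1 q.2 ((A : ℝ) ^ (2 + τ))) ⊆
        ((bf 5 A ×ˢ bf 5 A).filter fun q => Pool.Agent.H7.PQ.EL q.1 q.2 ∧
          ¬ Pool.Agent.H7.PQ.IZ q.1 q.2 ((A : ℝ) ^ (2 + τ))) := by
      intro q hq
      rw [mem_filter] at hq ⊢
      exact ⟨hq.1, hq.2.1.2, hq.2.2⟩
    exact_mod_cast card_le_card h7
  calc _ ≤ δ * (c / 2) * (2 * A + 1) ^ 30 := h6
    _ = δ * (c / 2 * (2 * A + 1) ^ 30) := by ring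
    _ ≤ _ := mul_le_mul_of_nonneg_left h5 hδ.le

end Pool.Agent.Results.MP_1f1b65_nt.AlmostAllSurfaces
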