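import Pool.Agent.H7.HP.Gen

set_option autoImplicit false

/-!
# 100 per cent of the everywhere locally soluble intersections of two quadrics in `P^4` with one
quadric fixed have a rational point

An integral quadratic form in five variables is given by its 15 coefficients `c : Idx 5 → ℤ`, indexed
by the pairs `(i, j)` with `i ≤ j`; `qv c x = ∑_{i ≤ j} c_(i,j) x_i x_j` is its value at `x`, `Hm c`
the symmetric matrix of its polar form (the Hessian), `bf 5 A` the finite set of all integral
quadratic forms in five variables with coefficients in `[-A, A]`; there are `(2A+1)^15` of them.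
-/

namespace Pool.Agent.Results.MP_1f1b65_nt.DensityOneHasse

open Finset Pool.Agent.H7.HP

/-- `f = g = 0` has a nontrivial solution with coordinates in the ring `R` -/
def HasZero (R : Type) [CommRing R] (f g : Idx 5 → ℤ) : Prop :=
  ∃ x : Fin 5 → R, x ≠ 0 ∧ qv (fun p => (f p : R)) x = 0 ∧ qv (fun p => (g p : R)) x = 0

/-- `f = g = 0` has nontrivial solutions over `ℝ` and over `ℚ_p` for all primes `p`: the variety
`f = g = 0` in `P^4` has points over all completions of `ℚ` -/
def EverywhereLocallySoluble (f g : Idx 5 → ℤ) : Prop :=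
  HasZero ℝ f g ∧ ∀ (p : ℕ) [Fact p.Prime], HasZero ℚ_[p] f g

/-- `f = g = 0` has a nontrivial integral solution `x` with `|x_i| ≤ H` for all `i` -/
def HasIntegralZero (f g : Idx 5 → ℤ) (H : ℝ) : Prop :=
  ∃ x : Fin 5 → ℤ, x ≠ 0 ∧ qv f x = 0 ∧ qv g x = 0 ∧ ∀ i, |(x i : ℝ)| ≤ H

private theorem hasZero_of_int {R : Type} [CommRing R] [CharZero R] {f g : Idx 5 → ℤ} {H : ℝ}
    (h : HasIntegralZero f g H) : HasZero R f g := by
  obtain ⟨x, hx, hf, hg, -⟩ := h
  refine ⟨fun i => (x i : R), ?_, ?_, ?_⟩
  · intro h0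
    apply hx
    funext i
    have := congrFun h0 i
    have h1 : (x i : R) = 0 := this
    exact_mod_cast h1
  · have := qv_map (Int.castRingHom R) f x
    rw [hf, map_zero] at this
    exact this.symm
  · have := qv_map (Int.castRingHom R) g x
    rw [hg, map_zero] at this
    exact this.symm

private theorem locSol_of_int {f g : Idx 5 → ℤ} {H : ℝ} (h : HasIntegralZero f g H) :
    EverywhereLocallySoluble f g :=
  ⟨hasZero_of_int h, fun _ _ => hasZero_of_int h⟩

open scoped Classical in
/-- Let `f` be a nondegenerate integral quadratic form in five variables with a nontrivial integral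
zero and let `τ > 0`. There is `c > 0` such that for every `δ > 0` and all large `A` at least
`c (2A+1)^15` of the integral quadratic forms `g` in five variables with coefficients in `[-A, A]` are
such that `f = g = 0` is everywhere locally soluble, and all but at most the proportion `δ` of these
`g` are such that `f = g = 0` has a nontrivial integral solution `x` with `|x_i| ≤ A^(1+τ)`. -/
theorem result (f : Idx 5 → ℤ) (hf : (Hm f).det ≠ 0)
    (hiso : ∃ e : Fin 5 → ℤ, e ≠ 0 ∧ qv f e = 0) (τ : ℝ) (hτ : 0 < τ) :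
    ∃ c : ℝ, 0 < c ∧ ∀ δ : ℝ, 0 < δ → ∃ A0 : ℕ, ∀ A : ℕ, A0 ≤ A →
      c * (2 * A + 1) ^ 15 ≤
        (((bf 5 A).filter fun g => EverywhereLocallySoluble f g).card : ℝ) ∧
      (((bf 5 A).filter fun g => EverywhereLocallySoluble f g ∧
          ¬ HasIntegralZero f g ((A : ℝ) ^ (1 + τ))).card : ℝ) ≤
        δ * (((bf 5 A).filter fun g => EverywhereLocallySoluble f g).card : ℝ) := by
  obtain ⟨c, hc, A1, hA1⟩ := gen2 hf hiso τ hτ
  refine ⟨c, hc, fun δ hδ => ?_⟩
  obtain ⟨A2, hA2⟩ := gen1 hf hiso τ (δ * c) hτ (by positivity)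
  refine ⟨max A1 A2, fun A hA => ?_⟩
  have h1 := hA1 A ((le_max_left _ _).trans hA)
  have h2 := hA2 A ((le_max_right _ _).trans hA)
  have h3 : (((bf 5 A).filter fun g => IntSol2 f g ((A : ℝ) ^ (1 + τ))).card : ℝ) ≤
      (((bf 5 A).filter fun g => EverywhereLocallySoluble f g).card : ℝ) := by
    have h4 : ((bf 5 A).filter fun g => IntSol2 f g ((A : ℝ) ^ (1 + τ))) ⊆
        ((bf 5 A).filter fun g => EverywhereLocallySoluble f g) := by
      intro g hg
      rw [mem_filter] at hg ⊢
      exact ⟨hg.1, locSol_of_int hg.2⟩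
    exact_mod_cast card_le_card h4
  have h5 := h1.trans h3
  refine ⟨h5, ?_⟩
  calc (((bf 5 A).filter fun g => EverywhereLocallySoluble f g ∧
          ¬ HasIntegralZero f g ((A : ℝ) ^ (1 + τ))).card : ℝ)
      ≤ δ * c * (2 * A + 1) ^ 15 := h2
    _ = δ * (c * (2 * A + 1) ^ 15) := by ring
    _ ≤ _ := mul_le_mul_of_nonneg_left h5 hδ.le

end Pool.Agent.Results.MP_1f1b65_nt.DensityOneHasse
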