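import Pool.Agent.H58.S13.Main
import Pool.Agent.H90.S13.Ex

set_option autoImplicit false

/-!
# Hasse principle for a class of minimal del Pezzo surfaces of degree 4

`A`, `B`: the symmetric matrices of two quadratic forms `f`, `g` in five variables over a number field
`k`, `X` the intersection of the two quadrics `f = g = 0` in `P^4`.
-/

namespace Pool.Agent.Results.MP_1f1b65_nt.OddDescent

open Matrix Polynomial IsDedekindDomain

/-- `f = g = 0` has a nontrivial solution with coordinates in `R`, where `k` is mapped to `R` by `φ` -/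
def HasPoint {k R : Type} [CommRing k] [CommRing R] (φ : k →+* R) (A B : Matrix (Fin 5) (Fin 5) k) :
    Prop :=
  ∃ x : Fin 5 → R, x ≠ 0 ∧ x ⬝ᵥ (A.map φ) *ᵥ x = 0 ∧ x ⬝ᵥ (B.map φ) *ᵥ x = 0

/-- `X` has points over all completions of the number field `k` (there is nothing to require at the
complex places) -/
def EverywhereLocallySoluble {k : Type} [Field k] [NumberField k] (A B : Matrix (Fin 5) (Fin 5) k) :
    Prop :=
  (∀ v : HeightOneSpectrum (NumberField.RingOfIntegers k),
    HasPoint (algebraMap k (v.adicCompletion k)) A B) ∧ ∀ σ : k →+* ℝ, HasPoint σ A B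

/-- the polynomial `det (A + T B)` -/
noncomputable def pencil {k : Type} [CommRing k] (A B : Matrix (Fin 5) (Fin 5) k) : k[X] :=
  (A.map C + (X : k[X]) • B.map C).det

/-- `X` is a smooth complete intersection of dimension two: the quintic form `det (s A + t B)` has no
multiple root -/
def IsSmooth {k : Type} [Field k] (A B : Matrix (Fin 5) (Fin 5) k) : Prop :=
  (pencil A B).Separable ∧ 4 ≤ (pencil A B).natDegree

/-- the monic cubic polynomial `T^3 + a T^2 + b T + c` -/
noncomputable def cubic {k : Type} [CommRing k] (a b c : k) : k[X] := X ^ 3 + C a * X ^ 2 + C b * X + C c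

/-- the discriminant of `T^3 + a T^2 + b T + c` -/
def cubicDisc {k : Type} [CommRing k] (a b c : k) : k :=
  a ^ 2 * b ^ 2 - 4 * b ^ 3 - 4 * a ^ 3 * c - 27 * c ^ 2 + 18 * a * b * c

/-- The class: `det (A + T B)` is divisible exactly once by an irreducible cubic `p`, and for the root
`θ` of `p` in `k(θ) = k[T]/(p)` the quadratic form `f + θ g` (of rank four) has the discriminant
`disc p` up to squares of `k(θ)`: its principal minors of order four are `disc p` times squares. -/
def CubicClass {k : Type} [Field k] (A B : Matrix (Fin 5) (Fin 5) k) : Prop :=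
  Aᵀ = A ∧ Bᵀ = B ∧ ∃ a b c : k, Irreducible (cubic a b c) ∧ cubic a b c ∣ pencil A B ∧
    ¬ cubic a b c ^ 2 ∣ pencil A B ∧
    ∀ i : Fin 5, ∃ u : AdjoinRoot (cubic a b c),
      ((A.map (algebraMap k (AdjoinRoot (cubic a b c))) + AdjoinRoot.root (cubic a b c) •
        B.map (algebraMap k (AdjoinRoot (cubic a b c)))).submatrix i.succAbove i.succAbove).det =
        algebraMap k (AdjoinRoot (cubic a b c)) (cubicDisc a b c) * u ^ 2

/-- no degenerate quadric `s f + t g = 0` of the pencil over `k` has a square discriminant (the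
discriminant of a form of rank four is read off its principal minors of order four); in particular a
smooth `X` with this property contains no conic defined over `k` -/
def NoConic {k : Type} [Field k] (A B : Matrix (Fin 5) (Fin 5) k) : Prop :=
  ∀ s t : k, s ≠ 0 ∨ t ≠ 0 → (s • A + t • B).det = 0 →
    ∃ i : Fin 5, ¬ IsSquare ((s • A + t • B).submatrix i.succAbove i.succAbove).det

theorem main {k : Type} [Field k] [NumberField k] (A B : Matrix (Fin 5) (Fin 5) k) (h : CubicClass A B)
    (hl : EverywhereLocallySoluble A B) : HasPoint (RingHom.id k) A B := by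
  obtain ⟨hA, hB, a, b, c, hirr, hdvd, hns, heps⟩ := h
  exact Pool.Agent.H58.S13.main A B hA hB a b c hirr hdvd hns heps hl.1 hl.2

theorem map_point {k R : Type} [Field k] [CommRing R] [Nontrivial R] (φ : k →+* R)
    (A B : Matrix (Fin 5) (Fin 5) k) (h : HasPoint (RingHom.id k) A B) : HasPoint φ A B := by
  obtain ⟨x, hx, h1, h2⟩ := h
  have key : ∀ S : Matrix (Fin 5) (Fin 5) k, x ⬝ᵥ (S.map (RingHom.id k)) *ᵥ x = 0 →
      (fun i => φ (x i)) ⬝ᵥ (S.map φ) *ᵥ (fun i => φ (x i)) = 0 := by
    intro S hS
    have h3 := Pool.Agent.H58.S13.qf_map φ S x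
    have h4 : Pool.Agent.H58.S13.qf S x = 0 := by
      rw [← hS]
      rfl
    rw [h4, map_zero] at h3
    exact h3
  refine ⟨fun i => φ (x i), ?_, key A h1, key B h2⟩
  intro h0
  apply hx
  funext i
  have h5 : φ (x i) = 0 := congrFun h0 i
  exact (map_eq_zero φ).mp h5

/-- Let `k` be a number field and `X : f = g = 0` an intersection of two quadrics in `P^4` over `k` such
that `det (f + T g)` is divisible exactly once by an irreducible cubic `p` and `f + θ g` has the
discriminant `disc p` up to squares in `k(θ)`, `p(θ) = 0`. Then `X` has a point over `k` if and only if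
it has points over all completions of `k`. There are smooth `X` over `ℚ` with this property, without
conics over `ℚ` and with a rational point. -/
theorem result :
    (∀ (k : Type) [Field k] [NumberField k] (A B : Matrix (Fin 5) (Fin 5) k), CubicClass A B →
      (HasPoint (RingHom.id k) A B ↔ EverywhereLocallySoluble A B)) ∧
    ∃ A B : Matrix (Fin 5) (Fin 5) ℚ,
      IsSmooth A B ∧ CubicClass A B ∧ NoConic A B ∧ HasPoint (RingHom.id ℚ) A B := by
  refine ⟨fun k _ _ A B h => ⟨fun hp => ⟨fun v => map_point _ A B hp, fun σ => map_point σ A B hp⟩,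
    main A B h⟩, Pool.Agent.H90.S13.exA, Pool.Agent.H90.S13.exB, ?_, ?_, ?_, ?_⟩
  · exact ⟨Pool.Agent.H90.S13.ex_smooth.2.2.1, Pool.Agent.H90.S13.ex_smooth.2.2.2⟩
  · exact ⟨Pool.Agent.H90.S13.exA_symm, Pool.Agent.H90.S13.exB_symm, 0, 0, -2,
      Pool.Agent.H90.S13.ex_irr, Pool.Agent.H90.S13.ex_dvd, Pool.Agent.H90.S13.ex_ndvd,
      Pool.Agent.H90.S13.ex_heps⟩
  · exact Pool.Agent.H90.S13.ex_nosplit
  · exact Pool.Agent.H90.S13.ex_zero

end Pool.Agent.Results.MP_1f1b65_nt.OddDescent
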